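import Pool.Agent.H56T.GAAsm
import Pool.Agent.H56T.LRAT
import Pool.Agent.H56T.GA.PAR
import Pool.Agent.H56T.GA.LNG
import Pool.Agent.H56T.GA.WRP
import Pool.Agent.H56T.GA.ORD
import Pool.Agent.H56T.GA.MAT
import Pool.Agent.H56T.GA.LFT
import Pool.Agent.H56T.GA.COC
import Pool.Agent.H56T.GA.CRD
import Pool.Agent.H56T.GA.FSR
import Pool.Agent.H56T.GA.GCM
import Pool.Agent.H56T.GA.MOB
import Pool.Agent.H56T.GA.GHM
import Pool.Agent.H56T.GA.NST
import Pool.Agent.H56T.GA.NSG
import Pool.Agent.H56T.GA.THT
import Pool.Agent.H56T.GA.GUN

/-!
# `L²`-Betti numbers above half the dimension, for Artin groups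

Let `M` be a Coxeter matrix on a finite set and `A = ArtG M` its Artin group. If a finite index subgroup of `A` acts
properly on a contractible `n`-manifold then the `L²`-Betti numbers of the universal cover of the Salvetti complex of `A`
vanish in the degrees `i > n / 2`. If the `K(π, 1)` conjecture holds for `A` (for example if `A` is spherical, affine,
right-angled, of large type, of FC type or two-dimensional) the Salvetti complex is aspherical and these are the
`L²`-Betti numbers of `A`.

Ideas of the proof. (1) The squares `Δ_T²` of the Garside elements of the irreducible spherical parabolic subgroups are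
the vertices of a flag complex `L'`, `Δ_S²` and `Δ_T²` are adjacent if `S ⊂ T` or `T ⊂ S` or if `S` and `T` commute; `L'`
is a subdivision of the nerve `L` (the complex of the standard abelian subgroups of Davis and Huang). The cocycle on the
Artin group which counts the crossings of the reflecting hyperplanes gives homomorphisms of a finite index subgroup of
the pure Artin group to `ℤ` which are dual to these elements: for every irreducible `T` there is a reflection with the
support `T`. So the octahedralization of `L'` can be used to obstruct proper actions, as for right-angled Artin groups.
(2) The mod 2 van Kampen obstruction of this octahedralization is not zero in the degree `2 i` if `L'` has homology over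
`F_2` in the degree `i - 1` (`Phi.lean`, `Ev2.lean`); so `L` has no rational homology in the degree `i - 1`. (3) Over the
ring of fractions of the group von Neumann algebra the chain complex of the Salvetti complex is isomorphic to the
augmented chain complex of `L`: the alternating sums of the lifts of the elements of the finite parabolic subgroups are
units, by the identity `∑_(S ⊆ T) ± θ_T / θ_S = ± Δ_T` and induction, and the coefficients of the boundary operator
are their quotients (`THT`, `GUN`).
-/

set_option autoImplicit false

namespace Pool.Agent.Results.MP_ea75ba_gt.AllArtinGroups

open Pool.Agent.H56T Pool.Agent.H56T.LR Pool.Agent.H56T.GA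

/-- Let `M` be a Coxeter matrix on a finite set, and let a finite index subgroup `H` of the Artin group `ArtG M` act
properly on a contractible space `X` such that `X × ℝ^k` can be mapped continuously and injectively to `ℝ^n × ℝ^k` for
some `k` (for example on a contractible `n`-manifold with or without boundary). Then for `i > n / 2` the `i`-th
`L²`-Betti number of the universal cover of the Salvetti complex of the Artin group is zero. -/
theorem result : ∀ (V : Type) [Fintype V] [LinearOrder V] (M : CoxeterMatrix V)
    (n : ℕ) (X : Type) [TopologicalSpace X] [ContractibleSpace X], StInj n X →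
    ∀ (H : Subgroup (ArtG M)) [MulAction H X], H.FiniteIndex → PropAct H X →
    ∀ i : ℕ, n < 2 * i → HasL2BettiSalG M i 0 :=
  fun _ _ _ M _ _ _ _ hX H _ hH hP _ hi =>
    GA.ASM.ga M t_PAR t_LNG t_WRP t_ORD t_MAT t_LFT t_COC t_CRD t_FSR t_GCM t_MOB t_GHM t_NST t_NSG t_THT t_GUN t_LRAT
      hX H hH hP hi

end Pool.Agent.Results.MP_ea75ba_gt.AllArtinGroups
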