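import Pool.Agent.H56T.KER
import Pool.Agent.H56T.FINA
import Pool.Agent.H56T.SALV
import Pool.Agent.H56T.LNKT
import Pool.Agent.H56T.KIN

/-!
# `L²`-Betti numbers above half the dimension, for the kernels of characters of right-angled Artin groups

Let `G` be a finite graph, `χ` a homomorphism from the right-angled Artin group `AG G` to `ℤ`, and `K` a subgroup of
finite index of the kernel of `χ`. For `χ = 0` these are the groups commensurable with right-angled Artin groups; if
`χ` maps every generator to `1` the kernel is the Bestvina-Brady group of `G`. Suppose that `K` acts properly on an
`n`-dimensional manifold `M`. The action need not be cocompact; about `M` we only use that it is contractible and that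
`M × ℝ^k` can be mapped continuously and injectively to `ℝ^n × ℝ^k` for some `k` (this holds for all contractible
`n`-manifolds with or without boundary: after adding an open collar `M × ℝ` is homeomorphic to `ℝ^(n+1)`, Stallings).
We show that the `L²`-Betti numbers of `K` vanish in the degrees `i > n / 2`.

If `χ` is not trivial we assume that the flag complex `L` of `G` has no reduced rational homology in the degree `i - 1`.
This is automatic if the kernel of `χ` is of type `FP` (Meier, Meinert and VanWyk), in particular if `K` acts properly
and cocompactly on a contractible manifold, the case of the question.

Ideas of the proof. (1) The flats of a finite index subgroup of a right-angled Artin group with the flag complex `L`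
give a map of the cone of the octahedralization `OL` of `L` to `M` such that points with disjoint supports and the same
image are bounded. Hence the mod 2 van Kampen obstruction of `OL` vanishes in the degree `2 i`. If `χ v ≠ 0` this is
applied to the link of the vertex `v`, whose right-angled Artin group is mapped to `K` by `w ↦ w^a v^b`, where
`χ (w^a v^b) = 0`. (2) If the obstruction of `OL` vanishes in the degree `2 i` then `L` has no homology over
`F_2` in the degree `i - 1` (`Phi.lean`, `Ev2.lean`). So the links of the vertices with `χ ≠ 0` have no rational
homology in the degree `i - 1`. (3) The `L²`-Betti numbers of `K` are computed by the chain complex of the universal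
cover of the Salvetti complex, with coefficients in the functions on `AG G` with values in the group von Neumann algebra
of `K` which are equivariant and have finite support modulo `K` (`FINA.lean`). (4) The boundary operator in the direction
of the generator `v` is `1 - v`. Over the ring of fractions of the von Neumann algebra it is bijective if `χ v = 0` and
injective if `χ v ≠ 0`, and the operators of two commuting generators with `χ ≠ 0` are coprime. This reduces the
computation to the homology of `L` and of the links of these vertices (`ALG.lean`).
-/

set_option autoImplicit false

namespace Pool.Agent.Results.MP_ea75ba_gt.ArtinKernels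

open Pool.Agent.W907.SG Pool.Agent.H56T Pool.Agent.N496.CV

/-- Let `χ` be a homomorphism from the right-angled Artin group `AG G` to `ℤ`, and let the subgroup `K` of finite index
of the kernel of `χ` act properly on a contractible space `M` such that `M × ℝ^k` can be mapped continuously and
injectively to `ℝ^n × ℝ^k` for some `k` (for example on a contractible `n`-manifold with or without boundary). Then the
`i`-th `L²`-Betti number of `K` is zero for all `i > n / 2` such that, if `χ` is not trivial, the flag complex of `G`
has no reduced rational homology in the degree `i - 1`. -/
theorem result : ∀ (V : Type) [Fintype V] [LinearOrder V] (G : SimpleGraph V) (χ : AG G →* Multiplicative ℤ)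
    (K : Subgroup (AG G)), K ≤ χ.ker → K.relIndex χ.ker ≠ 0 →
    ∀ (n : ℕ) (M : Type) [TopologicalSpace M] [ContractibleSpace M], StInj n M →
    ∀ [MulAction K M], PropAct K M → ∀ i : ℕ, n < 2 * i → (χ ≠ 1 → Rex G i) → HasL2Betti K i 0 := by
  intro V _ _ G χ K hK hKi n M _ _ hM _ hP i hi hR
  have h := hasL2Betti K i
  rwa [KER.kernels (fina salv) lnkt KIN.t_KIN χ K hK hKi hM hP hi hR] at h

end Pool.Agent.Results.MP_ea75ba_gt.ArtinKernels
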