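import Pool.Agent.H56G.All

/-!
# `L²`-Betti numbers above half the dimension, for graph products

Let `Γ` be a finite graph and `H v`, `v` a vertex, groups, each of which has a normal abelian subgroup which contains an
element of infinite order (for example infinite virtually abelian or virtually polycyclic groups, braid groups, the
fundamental groups of Seifert manifolds with infinite fundamental group, Baumslag-Solitar groups `BS(1, n)`). Let `Q` be a
subgroup of finite index of the graph product of the groups `H v`. Suppose that `Q` acts properly on an `n`-dimensional
manifold `M`. The action need not be cocompact; about `M` we only use that it is contractible and that `M × ℝ^k` can be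
mapped continuously and injectively to `ℝ^n × ℝ^k` for some `k` (this holds for all contractible `n`-manifolds with or
without boundary: after adding an open collar `M × ℝ` is homeomorphic to `ℝ^(n+1)`, Stallings). We show that the
`L²`-Betti numbers of `Q` vanish in the degrees `i > n / 2`.

Ideas of the proof. (1) Elements `z v ∈ H v` of infinite order generate a right-angled Artin group `AG Γ` in the graph
product, so the flag complex of `Γ` has no homology in the degree `i - 1` over `F_2`, hence over `ℚ`, by the van
Kampen obstruction (`Pool/Agent/H56T`, `raag_exa`). (2) Let `R` be the ring of matrices over the ring of fractions of the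
group von Neumann algebra of `Q`, on which the graph product acts by the induced representation (`SHU.lean`,
`SHR.lean`). The elements `1 - g`, `g` of infinite order, are units of `R`. The graph product is an amalgam of the
graph products over the complement of a vertex and over its star, along the link (`GPI.lean`, `GPX.lean`), and the star
has a normal subgroup with a central element of infinite order, so it has no homology with coefficients in `R`
(`ACY.lean`, `ACN.lean`). By induction (Mayer-Vietoris, `MVQ.lean`, `IND.lean`) the homology of the graph product and of
`AG Γ` with coefficients in `R` agree. (3) The homology of `AG Γ` is computed by the Salvetti complex (`SAV.lean`); over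
`R` it is the homology of the flag complex of `Γ`, shifted by one. (4) So `Tor_i(U, ℤ) = 0` for the ring of fractions `U`
of the group von Neumann algebra, and the dimension of `Tor_i(N, ℤ)` is zero (`FIN.lean`, the bar resolution: `BRI.lean`).
-/

set_option autoImplicit false

namespace Pool.Agent.Results.MP_ea75ba_gt.GraphProducts

open Pool.Agent.H56G Pool.Agent.H56T Pool.Agent.N496.CV

/-- Let each of the groups `H v` have a normal abelian subgroup which contains an element of infinite order, and let the
subgroup `Q` of finite index of the graph product `GP Γ H` act properly on a contractible space `M` such that `M × ℝ^k`
can be mapped continuously and injectively to `ℝ^n × ℝ^k` for some `k` (for example on a contractible `n`-manifold with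
or without boundary). Then the `i`-th `L²`-Betti number of `Q` is zero for all `i > n / 2`. -/
theorem result : ∀ (V : Type) [Fintype V] (Γ : SimpleGraph V) (H : V → Type) [∀ v, Group (H v)],
    (∀ v, ∃ N : Subgroup (H v), N.Normal ∧ (∀ a ∈ N, ∀ b ∈ N, a * b = b * a) ∧ ∃ z ∈ N, orderOf z = 0) →
    ∀ Q : Subgroup (GP Γ H), Q.FiniteIndex →
    ∀ (n : ℕ) (M : Type) [TopologicalSpace M] [ContractibleSpace M], StInj n M →
    ∀ [MulAction Q M], PropAct Q M → ∀ i : ℕ, n < 2 * i → HasL2Betti Q i 0 := by
  intro V _ Γ H _ hH Q hQ n M _ _ hM _ hP i hi
  exact graph_products Γ H hH Q hQ hM hP hi

end Pool.Agent.Results.MP_ea75ba_gt.GraphProducts
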