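import Pool.Agent.H56T.CTR

/-!
# `ℓ²`-homology above half the dimension, for right-angled Coxeter groups with twins

Let `G` be a finite graph in which every vertex `v` has a twin, that is another vertex with the same neighbours as
`v`. For example let `G` be the double of an arbitrary finite graph `L`: every vertex is replaced by two nonadjacent
ones, and the flag complex of `G` is the octahedralization `OL` of the flag complex of `L`. The right-angled Coxeter
group `W G` is then commensurable with the right-angled Artin group of `L` (Davis and Januszkiewicz), so that all
right-angled Artin groups are covered.

We prove: if a subgroup of finite index of `W G` acts properly on the `n`-dimensional manifold `M`, then the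
reduced `ℓ²`-homology of `W G` vanishes in the degrees `i > n / 2`. The action need not be cocompact. About `M` we
only use that it is contractible and that `M × ℝ^k` can be mapped continuously and injectively to `ℝ^n × ℝ^k` for
some `k`. All contractible `n`-manifolds with or without boundary have the second property: after adding an open collar
`M × ℝ` is homeomorphic to `ℝ^(n+1)` (Stallings).

Ideas of the proof. (1) The flats of a finite index subgroup give a map of the cone of `OL` to `M` which is an
embedding far away in the sense that points with disjoint supports and the same image are bounded. Taking powers of
this map, one sees that the mod 2 van Kampen obstruction of `OL` vanishes in the degree `2 i`. (2) The main point: if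
the reduced homology of `L` with coefficients in `F_2` is not zero in the degree `i - 1` (and `i` is maximal with
this property) then this obstruction is not zero. It is detected by an explicit symmetric cycle in the deleted join
of `OL`, whose coefficients are given by a function on the simplices of `L` which is invariant under the zeta
transform. This was known in the top degree `i - 1 = dim L` only. (3) So `L` has no homology over `F_2` in the degrees
`≥ i - 1`, and this implies the vanishing of the `ℓ²`-homology of `W G`. (4) The case of more than two twins is
reduced to the case of two by an induction.
-/

set_option autoImplicit false

namespace Pool.Agent.Results.MP_ea75ba_gt.TwinReflectionGroups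

open Pool.Agent.W907.SG Pool.Agent.H56T

/-- Let every vertex of the finite graph `G` have a twin. Let a subgroup `H` of finite index of the right-angled
Coxeter group `W G` act properly on a contractible space `M` such that `M × ℝ^k` can be mapped continuously and
injectively to `ℝ^n × ℝ^k` for some `k` (for example on a contractible `n`-manifold with or without boundary). Then
there are no nonzero `ℓ²` harmonic `i`-chains on the Davis complex of `W G` for `i > n / 2`. -/
theorem result : ∀ (V : Type) [Fintype V] [LinearOrder V] (G : SimpleGraph V), Twins G →
    ∀ (n : ℕ) (M : Type) [TopologicalSpace M] [ContractibleSpace M], StInj n M →
    ∀ (H : Subgroup (W G)) [MulAction H M], H.FiniteIndex → PropAct H M →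
    ∀ i : ℕ, n < 2 * i → L2Van G i :=
  fun _ _ _ _ hT _ _ _ _ hM _ _ hH hP _ hi => CTR.twins_l2 hT hM hH hP hi

end Pool.Agent.Results.MP_ea75ba_gt.TwinReflectionGroups
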